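import Mathlib
import Pool.Agent.D0H19.HS.Fin2
import Pool.Agent.D0H98.HS.Hit
import Pool.Agent.D0H98.HS.Mult

/-!
# MP_8fded1_nt: half horocycles control all values of Hecke-Maass forms

A large value of a Hecke-Maass form (anywhere in the upper half plane) forces, up to a factor that does not depend on
the form, a large value at some point `w` with `Y ≤ Im w ≤ R Y` and `Re w ∈ Z`; here `Z` is any closed set of real
numbers of period one whose complement contains at most one of the `p` points `x + j / p` for each `x` (`p` any prime);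
for example `Z` = half of the circle; moreover `Z` may be the interval `[1/3 - ε, 2/3 + ε]`.  These sets of points
contain no closed horocycle.
-/

set_option autoImplicit false

namespace Pool.Agent.Results.MP_8fded1_nt.HalfHorocycles

open Pool.Agent.Results.MP_8fded1_nt.EllipticPointIsHarmless (IsHeckeMaass SupNormBound)

/-- The points over `Z` of heights in `[Y, R Y]`. -/
def Over (Z : Set ℝ) (Y R : ℝ) : Set ℂ := {w | w.re ∈ Z ∧ Y ≤ w.im ∧ w.im ≤ R * Y}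

/-- Every value of `U` is bounded by a value of `U` at a point of `S`, up to the factor
`C (Im z + 1 / Im z) ^ A`. -/
def ControlledOn (S : Set ℂ) (A : ℕ) (C : ℝ) (U : ℂ → ℂ) : Prop :=
  ∀ z : ℂ, 0 < z.im → ∃ w ∈ S, ‖U z‖ ≤ C * (z.im + 1 / z.im) ^ A * ‖U w‖

/-- Period one. -/
def PeriodOne (Z : Set ℝ) : Prop := ∀ x : ℝ, x ∈ Z ↔ x + 1 ∈ Z

/-- For every `x` at most one of the `p` points `x + j / p`, `0 ≤ j < p`, is not in `Z`. -/
def MissesAtMostOne (p : ℕ) (Z : Set ℝ) : Prop :=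
  ∀ (x : ℝ) (i j : ℕ), i < p → j < p → x + i / p ∉ Z → x + j / p ∉ Z → i = j

/-- The strips over `Z` control all Hecke-Maass forms: there is a ratio `R`, such that for each height `Y` some constant
`C` works for all forms. -/
def Controls (A : ℕ) (Z : Set ℝ) : Prop := ∃ R : ℝ, 1 ≤ R ∧ ∀ Y : ℝ, 0 < Y → ∃ C : ℝ, 0 < C ∧
  ∀ (U : ℂ → ℂ) (T : ℝ), IsHeckeMaass U T → ControlledOn (Over Z Y R) A C U

/-- `U` is even or odd under the reflection `z ↦ - conj z`. -/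
def EvenOrOdd (U : ℂ → ℂ) : Prop :=
  (∀ z : ℂ, 0 < z.im → U (-(starRingEnd ℂ z)) = U z) ∨ (∀ z : ℂ, 0 < z.im → U (-(starRingEnd ℂ z)) = -U z)

/-- The strips over `Z` control all even and all odd Hecke-Maass forms. -/
def ControlsEvenOdd (A : ℕ) (Z : Set ℝ) : Prop := ∃ R : ℝ, 1 ≤ R ∧ ∀ Y : ℝ, 0 < Y → ∃ C : ℝ, 0 < C ∧
  ∀ (U : ℂ → ℂ) (T : ℝ), IsHeckeMaass U T → EvenOrOdd U → ControlledOn (Over Z Y R) A C U

/-- The sup-norm bound with exponent `s` on all compact subsets of the upper half plane. -/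
def BoundEverywhere (s : ℝ) : Prop :=
  ∀ Ω : Set ℂ, IsCompact Ω → Ω ⊆ {z : ℂ | 0 < z.im} → SupNormBound Ω s

theorem hitu : Pool.Agent.D0H19.HS.S_HITu :=
  Pool.Agent.D0H98.HS.t_HITu (Pool.Agent.D0H98.HS.t_MULT Pool.Agent.D0H98.HS.t_PARS)

lemma ctl_iff {A : ℕ} {R C Y : ℝ} {Z : Set ℝ} {U : ℂ → ℂ} (h : Pool.Agent.D0H19.HS.Ctl A R C Y Z U) :
    ControlledOn (Over Z Y R) A C U := by
  intro z hz
  obtain ⟨w, h1, h2, h3, h4⟩ := h z hz
  exact ⟨w, ⟨h1, h2, h3⟩, h4⟩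

lemma controls_of {A : ℕ} {Z : Set ℝ} (h : Pool.Agent.D0H19.HS.Controls A Z) : Controls A Z := by
  obtain ⟨R, hR, h'⟩ := h
  refine ⟨R, hR, fun Y hY => ?_⟩
  obtain ⟨C, hC, h''⟩ := h' Y hY
  exact ⟨C, hC, fun U T hU => ctl_iff (h'' U T hU)⟩

lemma controlsP_of {A : ℕ} {Z : Set ℝ} (h : Pool.Agent.D0H19.HS.ControlsP A Z) : ControlsEvenOdd A Z := by
  obtain ⟨R, hR, h'⟩ := h
  refine ⟨R, hR, fun Y hY => ?_⟩
  obtain ⟨C, hC, h''⟩ := h' Y hY
  exact ⟨C, hC, fun U T hU hP => ctl_iff (h'' U T hU hP)⟩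

/-- **Half horocycles control.**
(1) The strips over every closed `Z` of period one, whose complement contains at most one of `x + j / p` for every `x`,
control all forms (`p` any prime).
(2) The same for the half circles `[c, c + 1/2]`, with constants independent of `c` (so `c` may depend on the form).
(3) The same for the interval `[1/3 - ε, 2/3 + ε]`.
(4), (5), (6) For even and odd forms it suffices that `Z ∪ -Z` is as in (1); the intervals `[0, 1/4]` and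
`[1/3 - ε, 1/2]` suffice.
(7), (8) The sup-norm bounds on all compact sets and on one box of width `1/2` (anywhere), or of width `1/3 + 2 ε` around
`1/2`, are equivalent, for each exponent. -/
theorem result : ∃ A : ℕ,
    (∀ (p : ℕ) (Z : Set ℝ), p.Prime → IsClosed Z → PeriodOne Z → MissesAtMostOne p Z → Controls A Z) ∧
    (∃ R : ℝ, 1 ≤ R ∧ ∀ Y : ℝ, 0 < Y → ∃ C : ℝ, 0 < C ∧ ∀ (U : ℂ → ℂ) (T : ℝ), IsHeckeMaass U T → ∀ c : ℝ,
      ControlledOn (Over (Set.Icc c (c + 1 / 2)) Y R) A C U) ∧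
    (∀ ε : ℝ, 0 < ε → Controls A (Set.Icc (1 / 3 - ε) (2 / 3 + ε))) ∧
    (∀ (p : ℕ) (Z : Set ℝ), p.Prime → IsClosed Z → PeriodOne Z → MissesAtMostOne p (Z ∪ {x | -x ∈ Z}) →
      ControlsEvenOdd A Z) ∧
    ControlsEvenOdd A (Set.Icc 0 (1 / 4)) ∧
    (∀ ε : ℝ, 0 < ε → ControlsEvenOdd A (Set.Icc (1 / 3 - ε) (1 / 2))) ∧
    (∃ R : ℝ, 1 ≤ R ∧ ∀ Y c s : ℝ, 0 < Y →
      (BoundEverywhere s ↔ SupNormBound (Over (Set.Icc c (c + 1 / 2)) Y R) s)) ∧
    (∀ ε : ℝ, 0 < ε → ∃ R : ℝ, 1 ≤ R ∧ ∀ Y s : ℝ, 0 < Y →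
      (BoundEverywhere s ↔ SupNormBound (Over (Set.Icc (1 / 3 - ε) (2 / 3 + ε)) Y R) s)) := by
  obtain ⟨A, h1, ⟨R, hR, h2⟩, h3⟩ := Pool.Agent.D0H19.HS.exists_all hitu
  refine ⟨A, fun p Z hp hc hi hT => controls_of (h1 p Z hp hc hi hT), ⟨R, hR, fun Y hY => ?_⟩,
    fun ε hε => controls_of (h3 ε hε),
    fun p Z hp hc hi hT => controlsP_of (Pool.Agent.D0H19.HS.parity_thick h1 p Z hp hc hi hT), ?_,
    fun ε hε => controlsP_of (Pool.Agent.D0H19.HS.parity_third (h3 ε hε)), ⟨R, hR, fun Y c s hY => ?_⟩,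
    fun ε hε => ?_⟩
  · obtain ⟨C, hC, h⟩ := h2 Y hY
    exact ⟨C, hC, fun U T hU c => ctl_iff (h U T hU c)⟩
  · refine ⟨R, hR, fun Y hY => ?_⟩
    obtain ⟨C, hC, h⟩ := h2 Y hY
    refine ⟨C, hC, fun U T hU hP z hz => ?_⟩
    obtain ⟨w, hw, ha, hb, h5⟩ := h U T hU (-(1 / 4)) z hz
    have hw0 : 0 < w.im := hY.trans_le ha
    rcases le_total 0 w.re with h6 | h6
    · exact ⟨w, ⟨⟨h6, by linarith [hw.2]⟩, ha, hb⟩, h5⟩
    · refine ⟨-(starRingEnd ℂ w), ⟨⟨?_, ?_⟩, ?_, ?_⟩, ?_⟩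
      · simpa using h6
      · simp only [Complex.neg_re, Complex.conj_re]
        linarith [hw.1]
      · simpa using ha
      · simpa using hb
      · rw [Pool.Agent.D0H19.HS.parity_norm hP hw0]
        exact h5
  · exact Pool.Agent.D0H19.HS.equiv_box (fun Y hY => by
      obtain ⟨C, hC, h⟩ := h2 Y hY
      exact ⟨C, hC, fun U T hU => h U T hU c⟩) hY s
  · obtain ⟨R, hR, h⟩ := h3 ε hε
    exact ⟨R, hR, fun Y s hY => Pool.Agent.D0H19.HS.equiv_box h hY s⟩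

end Pool.Agent.Results.MP_8fded1_nt.HalfHorocycles
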