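import Mathlib
import Pool.Agent.D0H35.SN.Fin

/-!
# Large values of Hecke-Maass forms are never isolated (MP_8fded1_nt)

Let `U` be a Hecke-Maass cusp form for `SL_2(Z)`, `|z| ≤ R` and `Im z ≥ 1 / R`.  Let `M` balls with arbitrary
centres (they may depend on `U` and `z`) and of radius `1 / (2^6 R^2 X^4)` be given, where `2^13 M log X ≤ X^2`.
Then there is a point `w = (z + b) / d`, `0 ≤ b < d ≤ X^2`, which lies in no `SL_2(Z)`-translate of the balls,
with `|U z| ≤ (2 X + 1) |U w|`.  So a large value is accompanied by large values at `M + 1` points of the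
modular surface with mutual distances at least `1 / (2^6 R^2 X^4)`, with a loss of `M^(1/2 + o(1))` only, and
nothing depends on `T`.  For the conjecture `|U z| ≤ C T^ε` on compact sets one may therefore discard, for each
form separately, `T^ε` balls of radius `T^(-ε)` of one's choice.

Proof.  For a prime `p` and `e < p`, let `z' = (z + e) / p`.  The Hecke relation for `T_p` at `z'` is
`U z + ∑ U ((z' + j) / p) = c_p U z'`, the sum over `0 ≤ j < p`; and `|c_p| ≤ p + 1`, by unfolding the `L^2` norm.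
So `|U z| ≤ (2 p + 1) |U w|` for `w = z'` or for one of the `w = (z + e + j p) / p^2`.  This is a large value
for each of the pairs `(p, e)`, `X / 16 < p ≤ X`, of which there are more than `25 M`.  If `26` of them lie in
translates of the same ball, there are nearly fixing integral matrices of `z` of determinant at most `X^4`; all
these come from one definite primitive form `v`, and if `v` has no zero at `(e, -1)` modulo `p` (at most two
values of `e` are excluded), at most `25` pairs `(p, e)` are possible: `p` is determined, and `e` is determined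
by `p` and by a unit `t^2 - D y^2 = ±4`, with `|t|, |y| ≤ 2`, of the quadratic order of discriminant `D`.
-/

set_option autoImplicit false
open MeasureTheory UpperHalfPlane
open scoped MatrixGroups

namespace Pool.Agent.Results.MP_8fded1_nt.LargeValuesAreNeverIsolated

/-- `U` is an `L^2`-normalised Hecke-Maass cusp form for `SL_2(Z)` with Laplace eigenvalue
`1/4 + T^2` (the clauses are those of the frozen statement of the problem). -/
def IsHeckeMaass (U : ℂ → ℂ) (T : ℝ) : Prop :=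
  ContDiffOn ℝ 2 U {z : ℂ | 0 < z.im} ∧
  (∀ z : ℂ, 0 < z.im → U (z + 1) = U z ∧ U (-z⁻¹) = U z) ∧
  (∀ z : ℂ, 0 < z.im →
    -((z.im : ℂ)) ^ 2 *
      (deriv (deriv (fun t : ℝ => U (z + (t : ℂ)))) 0 +
        deriv (deriv (fun t : ℝ => U (z + (t : ℂ) * Complex.I))) 0)
      = (1 / 4 + (T : ℂ) ^ 2) * U z) ∧
  (∀ y : ℝ, 0 < y →
    intervalIntegral (fun x : ℝ => U ((x : ℂ) + (y : ℂ) * Complex.I)) 0 1 volume = 0) ∧
  (∫ z in {z : ℂ | 0 < z.im ∧ |z.re| ≤ 1 / 2 ∧ 1 ≤ ‖z‖}, ‖U z‖ ^ 2 / z.im ^ 2) = 1 ∧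
  (∀ n : ℕ, 1 ≤ n → ∃ c : ℂ, ∀ z : ℂ, 0 < z.im →
    ∑ d ∈ n.divisors, ∑ b ∈ Finset.range d,
        U ((((n / d : ℕ) : ℂ) * z + (b : ℂ)) / (d : ℂ)) = c * U z)

/-- The conjecture, question Q1 of the problem: the bound `C T ^ ε` on compact subsets of the upper half-plane. -/
def SupNormConjecture : Prop :=
  ∀ K : Set ℂ, IsCompact K → K ⊆ {z : ℂ | 0 < z.im} → ∀ ε : ℝ, 0 < ε →
    ∃ C : ℝ, ∀ (U : ℂ → ℂ) (T : ℝ), 1 ≤ T → IsHeckeMaass U T → ∀ z ∈ K, ‖U z‖ ≤ C * T ^ ε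

/-- `w` lies in no `SL_2(Z)`-translate of the open balls of radius `r` around the points `c 0, ..., c (M - 1)`. -/
def Avoids {M : ℕ} (c : Fin M → ℍ) (r : ℝ) (w : ℍ) : Prop :=
  ∀ (i : Fin M) (g : SL(2, ℤ)), r ≤ dist (g • w) (c i)

/-- `w = (z + b) / d` with `0 ≤ b < d ≤ D` -/
def Below (z : ℍ) (D : ℕ) (w : ℍ) : Prop :=
  ∃ b d : ℕ, b < d ∧ d ≤ D ∧ (w : ℂ) = ((z : ℂ) + b) / d

theorem avoid {U : ℂ → ℂ} {T : ℝ} (hU : IsHeckeMaass U T) {R : ℝ} (hR : 1 ≤ R) {X : ℕ}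
    (hX : 2 ^ 10 ≤ X) {M : ℕ} (hM : 2 ^ 13 * (M : ℝ) * Real.log X ≤ (X : ℝ) ^ 2) (c : Fin M → ℍ)
    {z : ℍ} (hz : ‖(z : ℂ)‖ ≤ R) (hz' : 1 / R ≤ z.im) :
    ∃ w : ℍ, Below z (X ^ 2) w ∧ Avoids c (1 / (2 ^ 6 * R ^ 2 * (X : ℝ) ^ 4)) w ∧
      ‖U z‖ ≤ (2 * (X : ℝ) + 1) * ‖U w‖ := by
  obtain ⟨w, b, d, -, hb, hd, hw, h1, h2⟩ :=
    Pool.Agent.D0H35.SN.avoid (Pool.Agent.D0H35.SN.per_of (T := T) hU) hR hX c hM hz hz'
  exact ⟨w, ⟨b, d, hb, hd, hw⟩, h2, h1⟩

theorem points {U : ℂ → ℂ} {T : ℝ} (hU : IsHeckeMaass U T) {R : ℝ} (hR : 1 ≤ R) {X : ℕ}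
    (hX : 2 ^ 10 ≤ X) {z : ℍ} (hz : ‖(z : ℂ)‖ ≤ R) (hz' : 1 / R ≤ z.im) (M : ℕ)
    (hM : 2 ^ 13 * (M : ℝ) * Real.log X ≤ (X : ℝ) ^ 2) :
    ∃ w : Fin (M + 1) → ℍ, (∀ i, Below z (X ^ 2) (w i)) ∧
      (∀ i, ‖U z‖ ≤ (2 * (X : ℝ) + 1) * ‖U (w i)‖) ∧
      ∀ i j, i ≠ j → ∀ g : SL(2, ℤ), 1 / (2 ^ 6 * R ^ 2 * (X : ℝ) ^ 4) ≤ dist (g • w i) (w j) := by
  have hX0 : 0 ≤ Real.log X := Real.log_natCast_nonneg X
  induction M with
  | zero =>
    obtain ⟨w, h1, -, h2⟩ := avoid hU hR hX hM (fun i => i.elim0) hz hz'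
    exact ⟨fun _ => w, fun _ => h1, fun _ => h2, fun i j hij => absurd (Subsingleton.elim (α := Fin 1) i j) hij⟩
  | succ M ih =>
    obtain ⟨w, h1, h2, h3⟩ := ih (by
      refine le_trans ?_ hM
      push_cast
      nlinarith)
    obtain ⟨u, hu1, hu2, hu3⟩ := avoid hU hR hX hM w hz hz'
    refine ⟨Fin.snoc (α := fun _ => ℍ) w u, ?_, ?_, ?_⟩
    · intro i
      refine Fin.lastCases ?_ (fun i => ?_) i
      · simpa using hu1
      · simpa using h1 i
    · intro i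
      refine Fin.lastCases ?_ (fun i => ?_) i
      · simpa using hu3
      · simpa using h2 i
    · intro i j
      refine Fin.lastCases ?_ (fun i => ?_) i
      · refine Fin.lastCases ?_ (fun j => ?_) j
        · intro h; exact absurd rfl h
        · intro _ g
          simpa using hu2 j g
      · refine Fin.lastCases ?_ (fun j => ?_) j
        · intro _ g
          have h4 := hu2 i g⁻¹
          have h5 : dist (g • w i) u = dist (g⁻¹ • u) (w i) := by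
            rw [← Pool.Agent.D0H35.SN.dist_sl g⁻¹ (g • w i) u, inv_smul_smul, dist_comm]
          rw [Fin.snoc_castSucc, Fin.snoc_last, h5]
          exact h4
        · intro hij g
          simpa using h3 i j (fun h => hij (by rw [h])) g

theorem small {K : Set ℂ} (hK : IsCompact K) (hK' : K ⊆ {z : ℂ | 0 < z.im}) :
    ∃ R : ℝ, 1 ≤ R ∧ ∀ z ∈ K, ‖z‖ ≤ R ∧ 1 / R ≤ z.im := by
  rcases K.eq_empty_or_nonempty with h | h
  · exact ⟨1, le_rfl, by simp [h]⟩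
  · obtain ⟨A, hA⟩ := hK.isBounded.exists_norm_le
    obtain ⟨z0, hz0, hmin⟩ := hK.exists_isMinOn h Complex.continuous_im.continuousOn
    have h0 : 0 < z0.im := hK' hz0
    refine ⟨max 1 (max A (1 / z0.im)), le_max_left _ _, fun z hz => ⟨?_, ?_⟩⟩
    · exact (hA z hz).trans ((le_max_left _ _).trans (le_max_right _ _))
    · have h1 : z0.im ≤ z.im := hmin hz
      refine le_trans ?_ h1
      rw [div_le_iff₀ (by positivity)]
      have h2 : 1 / z0.im ≤ max 1 (max A (1 / z0.im)) := (le_max_right _ _).trans (le_max_right _ _)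
      calc (1 : ℝ) = z0.im * (1 / z0.im) := by field_simp
        _ ≤ _ := by gcongr

theorem below_im {z w : ℍ} {D : ℕ} (h : Below z D w) : w.im ≤ z.im ∧ z.im / D ≤ w.im := by
  obtain ⟨b, d, hb, hd, hw⟩ := h
  have hd0 : 0 < d := lt_of_le_of_lt (Nat.zero_le _) hb
  have h1 : w.im = z.im / d := by
    have h2 : w.im = (((z : ℂ) + b) / d).im := by rw [← hw]; rfl
    rw [h2, show (d : ℂ) = ((d : ℝ) : ℂ) by norm_cast, Complex.div_ofReal_im]
    simp
  have hdr : (1 : ℝ) ≤ d := by exact_mod_cast hd0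
  have hD : (d : ℝ) ≤ D := by exact_mod_cast hd
  have hz := z.im_pos
  rw [h1]
  exact ⟨div_le_self hz.le hdr, by gcongr⟩

/-- periodicity -/
theorem shift {U : ℂ → ℂ} {T : ℝ} (hU : IsHeckeMaass U T) {z : ℂ} (hz : 0 < z.im) (n : ℤ) :
    U (z + n) = U z := by
  have h0 : ∀ (n : ℕ) (z : ℂ), 0 < z.im → U (z + n) = U z := by
    intro n
    induction n with
    | zero => intro z _; simp
    | succ n ih =>
      intro z hz
      have h1 := (hU.2.1 (z + n) (by simpa using hz)).1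
      push_cast
      rw [← add_assoc, h1, ih z hz]
  rcases Int.eq_nat_or_neg n with ⟨m, hm | hm⟩
  · rw [hm]; simpa using h0 m z hz
  · rw [hm]
    have h1 := h0 m (z + ((-(m : ℤ) : ℤ) : ℂ)) (by simpa using hz)
    rw [← h1]
    congr 1
    push_cast
    ring

/-- **Large values are never isolated.**
(1) If `U` is a Hecke-Maass cusp form, `|z| ≤ R`, `Im z ≥ 1 / R`, and if `M` balls of radius
`1 / (2^6 R^2 X^4)` are given, `2^13 M log X ≤ X^2`, then `|U z| ≤ (2 X + 1) |U w|` for some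
`w = (z + b) / d`, `0 ≤ b < d ≤ X^2`, outside the `SL_2(Z)`-translates of the balls.
(2) There are `M + 1` such points `w` with mutual distances at least `1 / (2^6 R^2 X^4)` on the modular surface.
(3) The conjecture is equivalent to the following: for each `R` and `ε` there is `C` such that for every form
with `T ≥ 1` there are `X ≤ C T^ε` and at most `X^2 / (2^13 log X)` balls of radius `1 / (2^6 R^2 X^4)` such that
`|U| ≤ C T^ε` at the points outside the translates of the balls, of height between `1 / (R X^2)` and `R`. -/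
theorem result :
    (∀ (U : ℂ → ℂ) (T : ℝ), IsHeckeMaass U T → ∀ R : ℝ, 1 ≤ R → ∀ X : ℕ, 2 ^ 10 ≤ X →
      ∀ M : ℕ, 2 ^ 13 * (M : ℝ) * Real.log X ≤ (X : ℝ) ^ 2 → ∀ c : Fin M → ℍ,
      ∀ z : ℍ, ‖(z : ℂ)‖ ≤ R → 1 / R ≤ z.im →
        ∃ w : ℍ, Below z (X ^ 2) w ∧ Avoids c (1 / (2 ^ 6 * R ^ 2 * (X : ℝ) ^ 4)) w ∧
          ‖U z‖ ≤ (2 * (X : ℝ) + 1) * ‖U w‖) ∧
    (∀ (U : ℂ → ℂ) (T : ℝ), IsHeckeMaass U T → ∀ R : ℝ, 1 ≤ R → ∀ X : ℕ, 2 ^ 10 ≤ X →
      ∀ M : ℕ, 2 ^ 13 * (M : ℝ) * Real.log X ≤ (X : ℝ) ^ 2 →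
      ∀ z : ℍ, ‖(z : ℂ)‖ ≤ R → 1 / R ≤ z.im →
        ∃ w : Fin (M + 1) → ℍ, (∀ i, Below z (X ^ 2) (w i)) ∧
          (∀ i, ‖U z‖ ≤ (2 * (X : ℝ) + 1) * ‖U (w i)‖) ∧
          ∀ i j, i ≠ j → ∀ g : SL(2, ℤ),
            1 / (2 ^ 6 * R ^ 2 * (X : ℝ) ^ 4) ≤ dist (g • w i) (w j)) ∧
    (SupNormConjecture ↔
      ∀ R : ℝ, 1 ≤ R → ∀ ε : ℝ, 0 < ε → ∃ C : ℝ, ∀ (U : ℂ → ℂ) (T : ℝ), 1 ≤ T → IsHeckeMaass U T →
        ∃ (X M : ℕ) (c : Fin M → ℍ), 2 ^ 10 ≤ X ∧ (X : ℝ) ≤ C * T ^ ε ∧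
          2 ^ 13 * (M : ℝ) * Real.log X ≤ (X : ℝ) ^ 2 ∧
          ∀ w : ℍ, 1 / (R * (X : ℝ) ^ 2) ≤ w.im → w.im ≤ R →
            Avoids c (1 / (2 ^ 6 * R ^ 2 * (X : ℝ) ^ 4)) w → ‖U w‖ ≤ C * T ^ ε) := by
  refine ⟨fun U T hU R hR X hX M hM c z hz hz' => avoid hU hR hX hM c hz hz',
    fun U T hU R hR X hX M hM z hz hz' => points hU hR hX hz hz' M hM, ?_, ?_⟩
  · intro H R hR ε hε
    have hR0 : 0 < R := by linarith
    have him : ∀ z ∈ Complex.equivRealProdCLM.symm '' (Set.Icc (0 : ℝ) 1 ×ˢ Set.Icc (1 / (R * (2 ^ 10) ^ 2)) R),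
        0 ≤ z.re ∧ 1 / (R * (2 ^ 10) ^ 2) ≤ z.im := by
      rintro z ⟨⟨x, y⟩, ⟨h1, h2⟩, rfl⟩
      simp only [Set.mem_Icc] at h1 h2
      exact ⟨by simpa using h1.1, by simpa using h2.1⟩
    obtain ⟨C, hC⟩ := H (Complex.equivRealProdCLM.symm ''
        (Set.Icc (0 : ℝ) 1 ×ˢ Set.Icc (1 / (R * (2 ^ 10) ^ 2)) R))
      ((isCompact_Icc.prod isCompact_Icc).image Complex.equivRealProdCLM.symm.continuous)
      (fun z hz => lt_of_lt_of_le (by positivity) (him z hz).2) ε hε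
    refine ⟨max C (2 ^ 10), fun U T hT hU => ⟨2 ^ 10, 0, fun i => i.elim0, le_rfl, ?_, by simp, ?_⟩⟩
    · have h1 : (1 : ℝ) ≤ T ^ ε := Real.one_le_rpow hT hε.le
      have h2 : (2 ^ 10 : ℝ) ≤ max C (2 ^ 10) := le_max_right _ _
      push_cast
      nlinarith
    · intro w hw1 hw2 _
      have hs := shift hU (z := (w : ℂ)) w.im_pos (-⌊(w : ℂ).re⌋)
      have h1 := hC U T hT hU ((w : ℂ) + ((-⌊(w : ℂ).re⌋ : ℤ) : ℂ)) (by
        refine ⟨((w : ℂ).re - ⌊(w : ℂ).re⌋, (w : ℂ).im), ⟨?_, ?_⟩, ?_⟩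
        · exact ⟨by simpa using Int.floor_le _, by
            have := Int.lt_floor_add_one (w : ℂ).re
            simp only
            linarith⟩
        · refine ⟨?_, ?_⟩
          · have h3 : ((2 ^ 10 : ℕ) : ℝ) = 2 ^ 10 := by norm_num
            rw [h3] at hw1
            exact hw1
          · exact hw2
        · apply Complex.ext
          · simp [sub_eq_add_neg]
          · simp)
      rw [hs] at h1
      refine h1.trans ?_
      gcongr
      exact le_max_left _ _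
  · intro H K hK hK' ε hε
    obtain ⟨R, hR, hRK⟩ := small hK hK'
    have hR0 : 0 < R := by linarith
    obtain ⟨C, hC⟩ := H R hR (ε / 2) (by linarith)
    refine ⟨3 * C ^ 2, fun U T hT hU z hz => ?_⟩
    obtain ⟨X, M, c, hX, hXC, hM, hb⟩ := hC U T hT hU
    have hz0 : 0 < z.im := hK' hz
    obtain ⟨w, hw, hav, hle⟩ := avoid hU hR hX hM c (z := ⟨z, hz0⟩) (hRK z hz).1 (hRK z hz).2
    have hX' : (1024 : ℝ) ≤ X := by exact_mod_cast hX
    obtain ⟨hw1, hw2⟩ := below_im hw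
    have h1 := hb w (by
      refine le_trans ?_ hw2
      have h3 : 1 / R ≤ (⟨z, hz0⟩ : ℍ).im := (hRK z hz).2
      calc 1 / (R * (X : ℝ) ^ 2) = 1 / R / ((X ^ 2 : ℕ) : ℝ) := by push_cast; field_simp
        _ ≤ _ := by gcongr) (hw1.trans ((le_abs_self _).trans ((Complex.abs_im_le_norm z).trans
          (hRK z hz).1))) hav
    have h2 : 0 ≤ C * T ^ (ε / 2) := (norm_nonneg _).trans h1
    have h4 : T ^ ε = T ^ (ε / 2) * T ^ (ε / 2) := by
      rw [← Real.rpow_add (by linarith)]; congr 1; ring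
    calc ‖U z‖ ≤ (2 * (X : ℝ) + 1) * ‖U w‖ := hle
      _ ≤ (2 * (X : ℝ) + 1) * (C * T ^ (ε / 2)) := by gcongr
      _ ≤ (3 * (C * T ^ (ε / 2))) * (C * T ^ (ε / 2)) := by
          refine mul_le_mul_of_nonneg_right ?_ h2
          linarith
      _ = 3 * C ^ 2 * T ^ ε := by rw [h4]; ring

end Pool.Agent.Results.MP_8fded1_nt.LargeValuesAreNeverIsolated
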