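import Mathlib
import Pool.Agent.D0H35.SN2.Off
import Pool.Agent.D0H35.SN2.Geo

/-!
# Large values of Hecke-Maass forms away from all geodesics and CM points (MP_8fded1_nt)

Let `U` be a Hecke-Maass cusp form for `SL_2(Z)`, `|z| ≤ R` and `Im z ≥ 1 / R`, `N ≥ 1`.  Then there is a point
`w = (z + b) / d`, `0 ≤ b < d ≤ 2^14 (R N)^2`, with `|U z| ≤ 2^9 R N |U w|`, such that no integral matrix of
determinant `n ≠ 0`, `|n| ≤ N`, scalar matrices excepted, moves `w` by less than `δ = 1 / (2^63 (R N)^10)`.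
Here matrices of negative determinant act by `w ↦ (A conj w + B) / (C conj w + D)`.  In particular `w` has
distance at least `δ / 2` from all geodesics `C |v|^2 - 2 A Re v - B = 0`, `0 < A^2 + B C ≤ N`, that is from all
closed geodesics and all geodesics between cusps of bounded discriminant.  Nothing depends on `T`.

Proof.  Let `p` be a prime, `63 R N < p ≤ 128 R N`.  For `0 ≤ e < p` the Hecke relation for `T_p` at `(z + e) / p`
and `|c_p| ≤ p + 1` give `|U z| ≤ (2 p + 1) |U w|` for `w = (z + e) / p` or for one of the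
`w = (z + e + j p) / p^2`.  A matrix which nearly fixes `w` leads to one which nearly fixes `z`, of determinant
at most `N p^4` in absolute value.
(a) If the determinant is positive, it belongs to the definite primitive binary form `v` whose zero is nearest
to `z`.  If `e` is not a zero of `v` modulo `p`, this contradicts `N < p`.
(b) If the determinant is negative, it is a reflection and gives a primitive indefinite form `u`, nearly
orthogonal to `z`, with the zero `e` modulo `p`; either the discriminant of `u` is at most `N`, or the zero is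
double.  There are at most `O(R N)` forms `u` with discriminant at most `N` nearly orthogonal to `z`, hence at most
`60 R N` such values `e`.  If there are two values `e` with double zeros, the product of the two reflections
is a return of `z`, which belongs to `v`, and it follows that `v` vanishes at `e` modulo `p`.
So there is a good value `e < p`.
-/

set_option autoImplicit false
open MeasureTheory UpperHalfPlane

namespace Pool.Agent.Results.MP_8fded1_nt.LargeValuesOffGeodesics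

/-- `U` is an `L^2`-normalised Hecke-Maass cusp form for `SL_2(Z)` with Laplace eigenvalue
`1/4 + T^2` (the clauses are those of the frozen statement of the problem). -/
def IsHeckeMaass (U : ℂ → ℂ) (T : ℝ) : Prop :=
  ContDiffOn ℝ 2 U {z : ℂ | 0 < z.im} ∧
  (∀ z : ℂ, 0 < z.im → U (z + 1) = U z ∧ U (-z⁻¹) = U z) ∧
  (∀ z : ℂ, 0 < z.im →
    -((z.im : ℂ)) ^ 2 *
      (deriv (deriv (fun t : ℝ => U (z + (t : ℂ)))) 0 +
        deriv (deriv (fun t : ℝ => U (z + (t : ℂ) * Complex.I))) 0)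
      = (1 / 4 + (T : ℂ) ^ 2) * U z) ∧
  (∀ y : ℝ, 0 < y →
    intervalIntegral (fun x : ℝ => U ((x : ℂ) + (y : ℂ) * Complex.I)) 0 1 volume = 0) ∧
  (∫ z in {z : ℂ | 0 < z.im ∧ |z.re| ≤ 1 / 2 ∧ 1 ≤ ‖z‖}, ‖U z‖ ^ 2 / z.im ^ 2) = 1 ∧
  (∀ n : ℕ, 1 ≤ n → ∃ c : ℂ, ∀ z : ℂ, 0 < z.im →
    ∑ d ∈ n.divisors, ∑ b ∈ Finset.range d,
        U ((((n / d : ℕ) : ℂ) * z + (b : ℂ)) / (d : ℂ)) = c * U z)

/-- The conjecture, question Q1 of the problem: the bound `C T ^ ε` on compact subsets of the upper half-plane. -/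
def SupNormConjecture : Prop :=
  ∀ K : Set ℂ, IsCompact K → K ⊆ {z : ℂ | 0 < z.im} → ∀ ε : ℝ, 0 < ε →
    ∃ C : ℝ, ∀ (U : ℂ → ℂ) (T : ℝ), 1 ≤ T → IsHeckeMaass U T → ∀ z ∈ K, ‖U z‖ ≤ C * T ^ ε

/-- `w` has no Hecke return of determinant at most `N` at distance less than `δ`: for every integral
matrix `(A, B; C, D)` with `0 < AD - BC ≤ N` which is not scalar, the point
`w' = (A w + B) / (C w + D)` has hyperbolic distance at least `δ` from `w`. -/
def NoHeckeReturn (N : ℕ) (δ : ℝ) (w : ℍ) : Prop :=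
  ∀ A B C D : ℤ, 0 < A * D - B * C → A * D - B * C ≤ N → ¬ (B = 0 ∧ C = 0 ∧ A = D) →
    ∀ w' : ℍ, (w' : ℂ) * (C * (w : ℂ) + D) = A * (w : ℂ) + B → δ ≤ dist w' w

/-- The same for the orientation-reversing maps `w' = (A conj w + B) / (C conj w + D)` of the integral matrices
with `-N ≤ AD - BC < 0`. -/
def NoHeckeReflection (N : ℕ) (δ : ℝ) (w : ℍ) : Prop :=
  ∀ A B C D : ℤ, A * D - B * C < 0 → -(A * D - B * C) ≤ N →
    ∀ w' : ℍ, (w' : ℂ) * (C * (starRingEnd ℂ) (w : ℂ) + D) = A * (starRingEnd ℂ) (w : ℂ) + B →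
      δ ≤ dist w' w

/-- `w` has hyperbolic distance at least `δ` from each geodesic `C |v|^2 - 2 A Re v - B = 0` with integers
`A, B, C` and `0 < A^2 + B C ≤ N`. -/
def OffGeodesics (N : ℕ) (δ : ℝ) (w : ℍ) : Prop :=
  ∀ A B C : ℤ, 0 < A ^ 2 + B * C → A ^ 2 + B * C ≤ N →
    ∀ v : ℍ, C * ‖(v : ℂ)‖ ^ 2 - 2 * A * v.re - B = 0 → δ ≤ dist w v

theorem offGeodesics {N : ℕ} {δ : ℝ} {w : ℍ} (h : NoHeckeReflection N δ w) :
    OffGeodesics N (δ / 2) w := by
  intro A B C h1 h2 v hv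
  refine Pool.Agent.D0H35.SN2.geo h1 (fun w' hw' => ?_) hv
  exact h A B C (-A) (by nlinarith) (by nlinarith) w' hw'

theorem generic {U : ℂ → ℂ} {T : ℝ} (hU : IsHeckeMaass U T) {R : ℝ} (hR : 1 ≤ R) {N : ℕ}
    (hN : 1 ≤ N) {z : ℍ} (hz : ‖(z : ℂ)‖ ≤ R) (hz' : 1 / R ≤ z.im) :
    ∃ (w : ℍ) (b d : ℕ), b < d ∧ (d : ℝ) ≤ 2 ^ 14 * (R * N) ^ 2 ∧ (w : ℂ) = ((z : ℂ) + b) / d ∧
      ‖U z‖ ≤ 2 ^ 9 * (R * N) * ‖U w‖ ∧
      NoHeckeReturn N (1 / (2 ^ 63 * (R * N) ^ 10)) w ∧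
      NoHeckeReflection N (1 / (2 ^ 63 * (R * N) ^ 10)) w :=
  Pool.Agent.D0H35.SN2.off (Pool.Agent.D0H35.SN.per_of (T := T) hU) hR hN hz hz'

theorem small {K : Set ℂ} (hK : IsCompact K) (hK' : K ⊆ {z : ℂ | 0 < z.im}) :
    ∃ R : ℝ, 1 ≤ R ∧ ∀ z ∈ K, ‖z‖ ≤ R ∧ 1 / R ≤ z.im := by
  rcases K.eq_empty_or_nonempty with h | h
  · exact ⟨1, le_rfl, by simp [h]⟩
  · obtain ⟨A, hA⟩ := hK.isBounded.exists_norm_le
    obtain ⟨z0, hz0, hmin⟩ := hK.exists_isMinOn h Complex.continuous_im.continuousOn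
    have h0 : 0 < z0.im := hK' hz0
    refine ⟨max 1 (max A (1 / z0.im)), le_max_left _ _, fun z hz => ⟨?_, ?_⟩⟩
    · exact (hA z hz).trans ((le_max_left _ _).trans (le_max_right _ _))
    · have h1 : z0.im ≤ z.im := hmin hz
      refine le_trans ?_ h1
      rw [div_le_iff₀ (by positivity)]
      have h2 : 1 / z0.im ≤ max 1 (max A (1 / z0.im)) := (le_max_right _ _).trans (le_max_right _ _)
      calc (1 : ℝ) = z0.im * (1 / z0.im) := by field_simp
        _ ≤ _ := by gcongr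

/-- periodicity -/
theorem shift {U : ℂ → ℂ} {T : ℝ} (hU : IsHeckeMaass U T) {z : ℂ} (hz : 0 < z.im) (n : ℤ) :
    U (z + n) = U z := by
  have h0 : ∀ (n : ℕ) (z : ℂ), 0 < z.im → U (z + n) = U z := by
    intro n
    induction n with
    | zero => intro z _; simp
    | succ n ih =>
      intro z hz
      have h1 := (hU.2.1 (z + n) (by simpa using hz)).1
      push_cast
      rw [← add_assoc, h1, ih z hz]
  rcases Int.eq_nat_or_neg n with ⟨m, hm | hm⟩
  · rw [hm]; simpa using h0 m z hz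
  · rw [hm]
    have h1 := h0 m (z + ((-(m : ℤ) : ℤ) : ℂ)) (by simpa using hz)
    rw [← h1]
    congr 1
    push_cast
    ring

/-- **Large values away from all geodesics and CM points.**
(1) If `U` is a Hecke-Maass cusp form, `|z| ≤ R`, `Im z ≥ 1 / R`, `N ≥ 1` and `δ = 1 / (2^63 (R N)^10)`, then
`|U z| ≤ 2^9 R N |U w|` for some `w = (z + b) / d`, `0 ≤ b < d ≤ 2^14 (R N)^2`, which is moved by at least `δ` by
all integral non-scalar matrices of determinant `n`, `0 < |n| ≤ N`, and has distance at least `δ / 2` from all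
geodesics `C |v|^2 - 2 A Re v - B = 0`, `0 < A^2 + B C ≤ N`.
(2) The conjecture is equivalent to the following: for each `R` and `ε` there is `C` such that for every form
with `T ≥ 1` there is `N ≤ C T^ε` such that `|U| ≤ C T^ε` at the points `w` of this kind with
`1 / (2^14 R (R N)^2) ≤ Im w ≤ R`. -/
theorem result :
    (∀ (U : ℂ → ℂ) (T : ℝ), IsHeckeMaass U T → ∀ R : ℝ, 1 ≤ R → ∀ N : ℕ, 1 ≤ N →
      ∀ z : ℍ, ‖(z : ℂ)‖ ≤ R → 1 / R ≤ z.im →
        ∃ (w : ℍ) (b d : ℕ), b < d ∧ (d : ℝ) ≤ 2 ^ 14 * (R * N) ^ 2 ∧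
          (w : ℂ) = ((z : ℂ) + b) / d ∧ ‖U z‖ ≤ 2 ^ 9 * (R * N) * ‖U w‖ ∧
          NoHeckeReturn N (1 / (2 ^ 63 * (R * N) ^ 10)) w ∧
          NoHeckeReflection N (1 / (2 ^ 63 * (R * N) ^ 10)) w ∧
          OffGeodesics N (1 / (2 ^ 63 * (R * N) ^ 10) / 2) w) ∧
    (SupNormConjecture ↔
      ∀ R : ℝ, 1 ≤ R → ∀ ε : ℝ, 0 < ε → ∃ C : ℝ, ∀ (U : ℂ → ℂ) (T : ℝ), 1 ≤ T → IsHeckeMaass U T →
        ∃ N : ℕ, 1 ≤ N ∧ (N : ℝ) ≤ C * T ^ ε ∧
          ∀ w : ℍ, 1 / (2 ^ 14 * R * (R * N) ^ 2) ≤ w.im → w.im ≤ R →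
            NoHeckeReturn N (1 / (2 ^ 63 * (R * N) ^ 10)) w →
            NoHeckeReflection N (1 / (2 ^ 63 * (R * N) ^ 10)) w →
            OffGeodesics N (1 / (2 ^ 63 * (R * N) ^ 10) / 2) w → ‖U w‖ ≤ C * T ^ ε) := by
  refine ⟨fun U T hU R hR N hN z hz hz' => ?_, ?_, ?_⟩
  · obtain ⟨w, b, d, h1, h2, h3, h4, h5, h6⟩ := generic hU hR hN hz hz'
    exact ⟨w, b, d, h1, h2, h3, h4, h5, h6, offGeodesics h6⟩
  · intro H R hR ε hε
    have hR0 : 0 < R := by linarith
    have him : ∀ z ∈ Complex.equivRealProdCLM.symm ''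
        (Set.Icc (0 : ℝ) 1 ×ˢ Set.Icc (1 / (2 ^ 14 * R * (R * 1) ^ 2)) R),
        0 ≤ z.re ∧ 1 / (2 ^ 14 * R * (R * 1) ^ 2) ≤ z.im := by
      rintro z ⟨⟨x, y⟩, ⟨h1, h2⟩, rfl⟩
      simp only [Set.mem_Icc] at h1 h2
      exact ⟨by simpa using h1.1, by simpa using h2.1⟩
    obtain ⟨C, hC⟩ := H (Complex.equivRealProdCLM.symm ''
        (Set.Icc (0 : ℝ) 1 ×ˢ Set.Icc (1 / (2 ^ 14 * R * (R * 1) ^ 2)) R))
      ((isCompact_Icc.prod isCompact_Icc).image Complex.equivRealProdCLM.symm.continuous)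
      (fun z hz => lt_of_lt_of_le (by positivity) (him z hz).2) ε hε
    refine ⟨max C 1, fun U T hT hU => ⟨1, le_rfl, ?_, ?_⟩⟩
    · have h1 : (1 : ℝ) ≤ T ^ ε := Real.one_le_rpow hT hε.le
      have h2 : (1 : ℝ) ≤ max C 1 := le_max_right _ _
      push_cast
      nlinarith
    · intro w hw1 hw2 _ _ _
      have hs := shift hU (z := (w : ℂ)) w.im_pos (-⌊(w : ℂ).re⌋)
      have h1 := hC U T hT hU ((w : ℂ) + ((-⌊(w : ℂ).re⌋ : ℤ) : ℂ)) (by
        refine ⟨((w : ℂ).re - ⌊(w : ℂ).re⌋, (w : ℂ).im), ⟨?_, ?_⟩, ?_⟩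
        · exact ⟨by simpa using Int.floor_le _, by
            have := Int.lt_floor_add_one (w : ℂ).re
            simp only
            linarith⟩
        · refine ⟨?_, ?_⟩
          · rw [Nat.cast_one] at hw1
            exact hw1
          · exact hw2
        · apply Complex.ext
          · simp [sub_eq_add_neg]
          · simp)
      rw [hs] at h1
      refine h1.trans ?_
      gcongr
      exact le_max_left _ _
  · intro H K hK hK' ε hε
    obtain ⟨R, hR, hRK⟩ := small hK hK'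
    have hR0 : 0 < R := by linarith
    obtain ⟨C, hC⟩ := H R hR (ε / 2) (by linarith)
    refine ⟨2 ^ 9 * R * C ^ 2, fun U T hT hU z hz => ?_⟩
    obtain ⟨N, hN, hNC, hb⟩ := hC U T hT hU
    have hz0 : 0 < z.im := hK' hz
    have hN' : (1 : ℝ) ≤ N := by exact_mod_cast hN
    obtain ⟨w, b, d, hbd, hd, hw, hle, hr, hs⟩ :=
      generic hU hR hN (z := ⟨z, hz0⟩) (hRK z hz).1 (hRK z hz).2
    have hd0 : 0 < d := lt_of_le_of_lt (Nat.zero_le _) hbd
    have hdr : (1 : ℝ) ≤ d := by exact_mod_cast hd0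
    have hwim : w.im = z.im / d := by
      have h2 : w.im = ((((⟨z, hz0⟩ : ℍ) : ℂ) + b) / d).im := by rw [← hw]; rfl
      rw [h2, show (d : ℂ) = ((d : ℝ) : ℂ) by norm_cast, Complex.div_ofReal_im]
      simp
    have h1 := hb w (by
      rw [hwim]
      have h3 : 1 / R ≤ z.im := (hRK z hz).2
      calc 1 / (2 ^ 14 * R * (R * N) ^ 2) = 1 / R / (2 ^ 14 * (R * N) ^ 2) := by field_simp
        _ ≤ _ := by gcongr) (by
      rw [hwim]
      refine (div_le_self hz0.le hdr).trans ?_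
      exact (le_abs_self _).trans ((Complex.abs_im_le_norm z).trans (hRK z hz).1)) hr hs
        (offGeodesics hs)
    have h2 : 0 ≤ C * T ^ (ε / 2) := (norm_nonneg _).trans h1
    have h4 : T ^ ε = T ^ (ε / 2) * T ^ (ε / 2) := by
      rw [← Real.rpow_add (by linarith)]; congr 1; ring
    calc ‖U z‖ ≤ 2 ^ 9 * (R * N) * ‖U w‖ := hle
      _ ≤ 2 ^ 9 * (R * (C * T ^ (ε / 2))) * (C * T ^ (ε / 2)) := by gcongr
      _ = 2 ^ 9 * R * C ^ 2 * T ^ ε := by rw [h4]; ring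

end Pool.Agent.Results.MP_8fded1_nt.LargeValuesOffGeodesics
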