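import Mathlib
import Pool.Agent.N889.SN.Diag
import Pool.Agent.D0H29.HB.Control

set_option autoImplicit false

/-!
# MP_8fded1_nt: open sets which contain a closed horocycle, and small discs, control all values

Let `V` be an open set whose image in the modular surface contains a closed horocycle (of any height; `V` may be
an arbitrarily thin neighbourhood of it).  Then for every Hecke-Maass cusp form `U` and every point `z` the value
`|U z|` is at most `C (Im z + 1 / Im z) ^ A` times the absolute value of `U` at some point of `V`, with `C`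
depending only on `V` and `A` absolute: there is no loss in `T`.  A hyperbolic disc of radius `r` with centre of
height more than `1 / (2 r)` is such a set.  So there are discs of arbitrarily small radius such that, for every
exponent, the sup-norm bound on all compact sets is equivalent to the sup-norm bound on the disc, and the
conjecture is equivalent to the bound by `T ^ ε` on discs whose radius tends to zero as `T` tends to infinity.

Proof.  For fixed `z` let `G (a, b)` be the sum of `U ((z + j) / d)` over `0 ≤ j < d`, where `d = 2 ^ a 3 ^ b`.  The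
Hecke relations for `T_2` and `T_3` give `G (a + 2, b) = c G (a + 1, b) - 2 G (a, b)` and
`G (a, b + 2) = c' G (a, b + 1) - 3 G (a, b)`.  The solutions of this system form a space of dimension four; if
`v₁`, `v₂` is a basis of `ℤ²` then a solution which vanishes at the sixteen points `v₀ + m v₁ + n v₂`,
`0 ≤ m, n ≤ 3`, is zero (Cayley-Hamilton for the two shifts), and by compactness `|G (0, 0)| ≤ C max |G|` over the
sixteen points, uniformly in the eigenvalues `c`, `c'`, which are bounded.  There are bases with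
`|a log 2 + b log 3|` as small as one likes; so for a given thin band and every large height `y` there are sixteen
such points with `y / (2 ^ a 3 ^ b)` in the band, and `U z = G (0, 0)` for `Im z = y` is bounded by the values of `U`
on the band.  The values high in the cusp control all values by the theorem of the starting files.
-/

open Filter UpperHalfPlane

namespace Pool.Agent.Results.MP_8fded1_nt.SmallDiscsControl

open Pool.Agent.Results.MP_8fded1_nt.EllipticPointIsHarmless (IsHeckeMaass SupNormBound moeb)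
open Pool.Agent.Results.MP_8fded1_nt.CuspControlsCompactSets (Box toCore isCompact_box box_pos)

/-- The image of `V` in the modular surface contains the closed horocycle of height `Y`: every point `x + i Y` has
a modular translate in `V`. -/
def ContainsHorocycle (V : Set ℂ) (Y : ℝ) : Prop :=
  ∀ x : ℝ, ∃ g : Matrix.SpecialLinearGroup (Fin 2) ℤ, moeb g ((x : ℂ) + (Y : ℂ) * Complex.I) ∈ V

/-- The open disc of radius `r` around `w` in the hyperbolic metric of the upper half-plane. -/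
def Disc (w : ℂ) (r : ℝ) : Set ℂ :=
  {z : ℂ | ∃ (hz : 0 < z.im) (hw : 0 < w.im), dist (⟨z, hz⟩ : ℍ) (⟨w, hw⟩ : ℍ) < r}

lemma disc_eq (w : ℂ) (hw : 0 < w.im) (r : ℝ) : Disc w r = Pool.Agent.D0H29.HB.Disc ⟨w, hw⟩ r := by
  ext z
  exact ⟨fun ⟨hz, _, h⟩ => ⟨hz, h⟩, fun ⟨hz, h⟩ => ⟨hz, hw, h⟩⟩

lemma isOpen_disc (w : ℂ) (hw : 0 < w.im) (r : ℝ) : IsOpen (Disc w r) := by
  rw [disc_eq w hw]
  exact Pool.Agent.D0H29.HB.isOpen_disc _ r

lemma disc_horo {w : ℂ} {r : ℝ} (hr : 0 < r) (h : 1 / (2 * r) < w.im) : ContainsHorocycle (Disc w r) w.im := by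
  have hw : 0 < w.im := lt_trans (by positivity) h
  rw [disc_eq w hw]
  exact Pool.Agent.D0H29.HB.disc_horo (z₀ := ⟨w, hw⟩) hr h

/-- discs around `i k` of radius `1 / k` -/
theorem shrinking (G : ℝ → ℝ) (hG : Tendsto G atTop atTop) :
    ∃ Y : ℝ → ℝ, Tendsto Y atTop atTop ∧ (∀ T, 1 ≤ Y T) ∧ (∀ᶠ T in atTop, Y T ≤ G T) ∧
      ((∀ ε : ℝ, 0 < ε → ∀ Ω : Set ℂ, IsCompact Ω → Ω ⊆ {z : ℂ | 0 < z.im} → SupNormBound Ω ε) ↔
        ∀ ε : ℝ, 0 < ε → ∃ C : ℝ, ∀ (U : ℂ → ℂ) (T : ℝ), 1 ≤ T → IsHeckeMaass U T →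
          ∀ z ∈ Disc ((Y T : ℂ) * Complex.I) (1 / Y T), ‖U z‖ ≤ C * T ^ ε) := by
  have him : ∀ k : ℕ, (((k : ℝ) : ℂ) * Complex.I).im = k := fun k => by simp
  have hC : ∀ k : ℕ, ∃ C : ℝ, 0 < C ∧ (1 ≤ k → ∀ (U : ℂ → ℂ) (T : ℝ), IsHeckeMaass U T →
      ∀ z ∈ Box (1 / 2) (5 / 2), ∃ w ∈ Disc (((k : ℝ) : ℂ) * Complex.I) (1 / k), ‖U z‖ ≤ C * ‖U w‖) := by
    intro k
    rcases Nat.lt_or_ge k 1 with hk | hk
    · exact ⟨1, one_pos, fun h => by omega⟩
    · have hk' : (0 : ℝ) < k := by exact_mod_cast hk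
      have hw : 0 < (((k : ℝ) : ℂ) * Complex.I).im := by rw [him]; exact hk'
      obtain ⟨C, hC, h⟩ := Pool.Agent.D0H29.HB.core_controlled (isOpen_disc _ hw (1 / k)) hw
        (disc_horo (by positivity) (by rw [him, div_lt_iff₀ (by positivity)]; field_simp; norm_num))
      refine ⟨C, hC, fun _ U T hU z hz => ?_⟩
      obtain ⟨w, hw, -, h1⟩ := h U T hU z hz
      exact ⟨w, hw, h1⟩
  choose C hC h using hC
  have hD : ∀ k : ℕ, ∃ D : ℝ, 0 < D ∧ ∀ (U : ℂ → ℂ) (T : ℝ), IsHeckeMaass U T → 1 ≤ k →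
      ∀ z ∈ Disc (((k : ℝ) : ℂ) * Complex.I) (1 / k), ∃ w ∈ Box (1 / 2) (5 / 2), ‖U z‖ ≤ D * ‖U w‖ := by
    intro k
    rcases Nat.lt_or_ge k 1 with hk | hk
    · exact ⟨1, one_pos, fun U T hU h => by omega⟩
    · have hk' : (0 : ℝ) < k := by exact_mod_cast hk
      have hw : 0 < (((k : ℝ) : ℂ) * Complex.I).im := by rw [him]; exact hk'
      obtain ⟨Ω, hΩ, hΩ', hsub⟩ := Pool.Agent.D0H29.HB.disc_sub ⟨_, hw⟩ (1 / k)
      obtain ⟨D, hD, h⟩ := toCore Ω hΩ hΩ'
      refine ⟨D, hD, fun U T hU _ z hz => h U T hU z (hsub ?_)⟩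
      rwa [disc_eq _ hw] at hz
  choose D hD hD' using hD
  obtain ⟨κ, hκ, hκ1, hκG, hκε⟩ := Pool.Agent.N889.SN.diag (fun k => C k + D k) (fun k => k)
    (fun k => add_pos (hC k) (hD k)) G hG
  refine ⟨fun T => κ T, tendsto_natCast_atTop_atTop.comp hκ, fun T => ?_, hκG, ?_, ?_⟩
  · show (1 : ℝ) ≤ (κ T : ℝ)
    exact_mod_cast hκ1 T
  · intro hQ ε hε
    obtain ⟨B, hB, hB'⟩ := hκε (ε / 2) (by positivity)
    obtain ⟨A, hA⟩ := hQ (ε / 2) (by positivity) _ (isCompact_box (1 / 2) (5 / 2)) (box_pos (by norm_num))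
    refine ⟨B * |A|, fun U T hT hU z hz => ?_⟩
    have hT0 : 0 < T := by linarith
    have hTε : 0 < T ^ (ε / 2) := Real.rpow_pos_of_pos hT0 _
    obtain ⟨w, hw, h1⟩ := hD' (κ T) U T hU (hκ1 T) z hz
    have h2 := hA U T hT hU w hw
    have h3 := hB' T hT
    have h4 : D (κ T) ≤ B * T ^ (ε / 2) := by
      have := (hC (κ T)).le
      linarith
    calc ‖U z‖ ≤ D (κ T) * ‖U w‖ := h1
      _ ≤ (B * T ^ (ε / 2)) * (|A| * T ^ (ε / 2)) := by
        gcongr
        exact h2.trans (by gcongr; exact le_abs_self A)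
      _ = B * |A| * (T ^ (ε / 2) * T ^ (ε / 2)) := by ring
      _ = B * |A| * T ^ ε := by rw [← Real.rpow_add hT0]; congr 2; ring
  · intro hQ ε hε Ω hΩ hΩ'
    obtain ⟨B, hB, hB'⟩ := hκε (ε / 2) (by positivity)
    obtain ⟨A, hA⟩ := hQ (ε / 2) (by positivity)
    obtain ⟨C₀, hC₀, h₀⟩ := toCore Ω hΩ hΩ'
    refine ⟨C₀ * B * |A|, fun U T hT hU z hz => ?_⟩
    have hT0 : 0 < T := by linarith
    have hTε : 0 < T ^ (ε / 2) := Real.rpow_pos_of_pos hT0 _
    obtain ⟨v, hv, h0⟩ := h₀ U T hU z hz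
    obtain ⟨w, hw, h1⟩ := h (κ T) (hκ1 T) U T hU v hv
    have h2 := hA U T hT hU w hw
    have h3 := hB' T hT
    have h4 : C (κ T) ≤ B * T ^ (ε / 2) := by
      have := (hD (κ T)).le
      linarith
    calc ‖U z‖ ≤ C₀ * ‖U v‖ := h0
      _ ≤ C₀ * (C (κ T) * ‖U w‖) := by gcongr
      _ ≤ C₀ * ((B * T ^ (ε / 2)) * (|A| * T ^ (ε / 2))) := by
        gcongr
        exact h2.trans (by gcongr; exact le_abs_self A)
      _ = C₀ * B * |A| * (T ^ (ε / 2) * T ^ (ε / 2)) := by ring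
      _ = C₀ * B * |A| * T ^ ε := by rw [← Real.rpow_add hT0]; congr 2; ring

/-- **Main result.**
(1) There is a natural number `A` such that for every open set `V` whose image in the modular surface contains a
closed horocycle there is `C` such that for every Hecke-Maass cusp form `U` and every point `z` of the upper
half-plane there is `w` in `V`, `Im w > 0`, with `|U z| ≤ C (Im z + 1 / Im z) ^ A |U w|`.
(2) A hyperbolic disc of radius `r` with centre of height more than `1 / (2 r)` contains a closed horocycle in this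
sense, and for every `s` the sup-norm bound with exponent `s` holds on all compact subsets of the upper half-plane
if and only if it holds on this disc.
(3) For every function `G` tending to infinity there is a function `Y` tending to infinity with `Y T ≤ G T` for all
large `T` such that the sup-norm conjecture (all compact sets, all `ε > 0`) is equivalent to the bounds
`|U z| ≤ C_ε T ^ ε` for `z` in the hyperbolic disc of radius `1 / Y T` around `i Y T`. -/
theorem result :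
    (∃ A : ℕ, ∀ V : Set ℂ, IsOpen V → ∀ Y : ℝ, 0 < Y → ContainsHorocycle V Y →
      ∃ C : ℝ, 0 < C ∧ ∀ (U : ℂ → ℂ) (T : ℝ), IsHeckeMaass U T → ∀ z : ℂ, 0 < z.im →
        ∃ w ∈ V, 0 < w.im ∧ ‖U z‖ ≤ C * (z.im + 1 / z.im) ^ A * ‖U w‖) ∧
    (∀ r : ℝ, 0 < r → ∀ w : ℂ, 1 / (2 * r) < w.im → ContainsHorocycle (Disc w r) w.im ∧
      ∀ s : ℝ, (∀ Ω : Set ℂ, IsCompact Ω → Ω ⊆ {z : ℂ | 0 < z.im} → SupNormBound Ω s) ↔
        SupNormBound (Disc w r) s) ∧
    (∀ G : ℝ → ℝ, Tendsto G atTop atTop →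
      ∃ Y : ℝ → ℝ, Tendsto Y atTop atTop ∧ (∀ T, 1 ≤ Y T) ∧ (∀ᶠ T in atTop, Y T ≤ G T) ∧
        ((∀ ε : ℝ, 0 < ε → ∀ Ω : Set ℂ, IsCompact Ω → Ω ⊆ {z : ℂ | 0 < z.im} → SupNormBound Ω ε) ↔
          ∀ ε : ℝ, 0 < ε → ∃ C : ℝ, ∀ (U : ℂ → ℂ) (T : ℝ), 1 ≤ T → IsHeckeMaass U T →
            ∀ z ∈ Disc ((Y T : ℂ) * Complex.I) (1 / Y T), ‖U z‖ ≤ C * T ^ ε)) := by
  refine ⟨Pool.Agent.D0H29.HB.controlled, fun r hr w hw => ⟨disc_horo hr hw, fun s => ⟨fun h => ?_, fun h Ω hΩ hΩ' => ?_⟩⟩,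
    shrinking⟩
  · have hw0 : 0 < w.im := lt_trans (by positivity) hw
    obtain ⟨Ω, hΩ, hΩ', hsub⟩ := Pool.Agent.D0H29.HB.disc_sub ⟨w, hw0⟩ r
    obtain ⟨C, hC⟩ := h Ω hΩ hΩ'
    refine ⟨C, fun U T hT hU z hz => hC U T hT hU z (hsub ?_)⟩
    rwa [disc_eq _ hw0] at hz
  · have hw0 : 0 < w.im := lt_trans (by positivity) hw
    obtain ⟨C₀, hC₀, h₀⟩ := toCore Ω hΩ hΩ'
    obtain ⟨C, hC, h1⟩ := Pool.Agent.D0H29.HB.core_controlled (isOpen_disc w hw0 r) hw0 (disc_horo hr hw)
    obtain ⟨B, hB⟩ := h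
    refine ⟨C₀ * C * B, fun U T hT hU z hz => ?_⟩
    obtain ⟨v, hv, h2⟩ := h₀ U T hU z hz
    obtain ⟨x, hx, -, h3⟩ := h1 U T hU v hv
    calc ‖U z‖ ≤ C₀ * ‖U v‖ := h2
      _ ≤ C₀ * (C * ‖U x‖) := by gcongr
      _ ≤ C₀ * (C * (B * T ^ s)) := by
        gcongr
        exact hB U T hT hU x hx
      _ = C₀ * C * B * T ^ s := by ring

end Pool.Agent.Results.MP_8fded1_nt.SmallDiscsControl
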